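import Pool.Agent.U140.FM.Def
set_option autoImplicit false

/-! Project FM (helper140), package B (helper337): one move of an awake frog. -/

namespace Pool.Agent.U140.FM
open Finset
open scoped BigOperators

namespace PkgB

section avg
variable {α β : Type} [Fintype α] [Fintype β]

theorem avg_mono {f g : α → ℝ} (h : ∀ a, f a ≤ g a) : avg f ≤ avg g := by
  unfold avg
  exact div_le_div_of_nonneg_right (Finset.sum_le_sum fun a _ => h a) (Nat.cast_nonneg _)

theorem avg_nonneg {f : α → ℝ} (h : ∀ a, 0 ≤ f a) : 0 ≤ avg f := by
  unfold avg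
  exact div_nonneg (Finset.sum_nonneg fun a _ => h a) (Nat.cast_nonneg _)

theorem avg_congr {f g : α → ℝ} (h : ∀ a, f a = g a) : avg f = avg g := by
  unfold avg
  rw [Finset.sum_congr rfl fun a _ => h a]

theorem avg_const [Nonempty α] (c : ℝ) : avg (fun _ : α => c) = c := by
  unfold avg
  rw [Finset.sum_const, Finset.card_univ, nsmul_eq_mul, mul_div_cancel_left₀]
  exact Nat.cast_ne_zero.2 Fintype.card_ne_zero

theorem avg_add (f g : α → ℝ) : avg (fun a => f a + g a) = avg f + avg g := by
  unfold avg
  rw [Finset.sum_add_distrib, add_div]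

theorem avg_const_add [Nonempty α] (c : ℝ) (f : α → ℝ) : avg (fun a => c + f a) = c + avg f := by
  rw [avg_add, avg_const]

theorem avg_equiv (e : α ≃ β) (f : β → ℝ) : avg (fun a => f (e a)) = avg f := by
  unfold avg
  rw [Equiv.sum_comp e f, Fintype.card_congr e]

theorem avg_prod (f : α → β → ℝ) : avg (fun p : α × β => f p.1 p.2) = avg fun a => avg fun b => f a b := by
  unfold avg
  rw [Fintype.sum_prod_type, Fintype.card_prod, ← Finset.sum_div, div_div, Nat.cast_mul, mul_comm]

theorem avg_comm (f : α → β → ℝ) : (avg fun a => avg fun b => f a b) = avg fun b => avg fun a => f a b := by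
  rw [← avg_prod, ← avg_prod]
  exact avg_equiv (Equiv.prodComm α β) (fun p : β × α => f p.2 p.1)

/-- resampling one coordinate -/
theorem resample {ι : Type} [DecidableEq ι] [Fintype ι] [Nonempty α] (y : ι) (G : α → (ι → α) → ℝ)
    (hG : ∀ u w w', (∀ i, i ≠ y → w i = w' i) → G u w = G u w') :
    avg (fun w : ι → α => G (w y) w) = avg fun w : ι → α => avg fun u => G u w := by
  let T : (ι → α) × α ≃ (ι → α) × α :=
    { toFun := fun p => (Function.update p.1 y p.2, p.1 y)
      invFun := fun p => (Function.update p.1 y p.2, p.1 y)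
      left_inv := by rintro ⟨w, u⟩; simp
      right_inv := by rintro ⟨w, u⟩; simp }
  have h1 : avg (fun w : ι → α => avg fun u => G u w) = avg (fun p : (ι → α) × α => G p.2 p.1) := by
    rw [← avg_prod]
  have h2 : avg (fun p : (ι → α) × α => G p.2 p.1) =
      avg (fun p : (ι → α) × α => G ((T p).1 y) (T p).1) := by
    refine avg_congr ?_
    rintro ⟨w, u⟩
    change G u w = G (Function.update w y u y) (Function.update w y u)
    rw [Function.update_self]
    exact hG u _ _ fun i hi => by rw [Function.update_of_ne hi]
  rw [h1, h2, avg_equiv T (fun p : (ι → α) × α => G (p.1 y) p.1), avg_prod (fun (w : ι → α) (_ : α) => G (w y) w)]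
  exact avg_congr fun w => (avg_const _).symm

end avg

section
variable {V M : Type} [DecidableEq V] [Fintype M] [Inhabited M]
variable (step : V → M → V) (r : V → ℝ)

omit [DecidableEq V] [Fintype M] [Inhabited M] in
theorem path_append (l m : List M) : ∀ x : V, ∃ l', path step x (l ++ m) = path step x l ++ l' := by
  induction l with
  | nil => intro x; exact ⟨path step x m, by simp [path]⟩
  | cons a l ih =>
    intro x
    obtain ⟨l', hl'⟩ := ih (step x a)
    exact ⟨l', by simp [path, hl']⟩

omit [Fintype M] [Inhabited M] in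
theorem vis_cons {k : ℕ} (x : V) (a : M) (u : Fin k → M) :
    vis step x (Fin.cons a u : Fin (k + 1) → M) = insert (step x a) (vis step (step x a) u) := by
  unfold vis
  rw [List.ofFn_succ]
  simp [path]

omit [DecidableEq V] [Fintype M] [Inhabited M] in
theorem gain_cons {k : ℕ} (x : V) (a : M) (u : Fin k → M) :
    gain step r x (Fin.cons a u : Fin (k + 1) → M) = r (step x a) + gain step r (step x a) u := by
  unfold gain
  rw [List.ofFn_succ]
  simp [path]

omit [Fintype M] [Inhabited M] in
theorem vis_snoc {k : ℕ} (x : V) (a : M) (u : Fin k → M) :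
    vis step x u ⊆ vis step x (Fin.snoc u a : Fin (k + 1) → M) := by
  unfold vis
  rw [List.ofFn_succ', List.concat_eq_append]
  simp only [Fin.snoc_castSucc, Fin.snoc_last]
  obtain ⟨l', hl'⟩ := path_append step (List.ofFn u) [a] x
  rw [hl', List.toFinset_append]
  exact Finset.subset_union_left

omit [DecidableEq V] [Fintype M] [Inhabited M] in
theorem gain_snoc (hr : ∀ v, 0 ≤ r v) {k : ℕ} (x : V) (a : M) (u : Fin k → M) :
    gain step r x u ≤ gain step r x (Fin.snoc u a : Fin (k + 1) → M) := by
  unfold gain
  rw [List.ofFn_succ', List.concat_eq_append]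
  simp only [Fin.snoc_castSucc, Fin.snoc_last]
  obtain ⟨l', hl'⟩ := path_append step (List.ofFn u) [a] x
  rw [hl', List.map_append, List.sum_append]
  have : 0 ≤ (l'.map r).sum := List.sum_nonneg (by
    intro t ht
    obtain ⟨v, _, rfl⟩ := List.mem_map.1 ht
    exact hr v)
  linarith

omit [DecidableEq V] [Fintype M] [Inhabited M] in
theorem gain_nonneg (hr : ∀ v, 0 ≤ r v) {k : ℕ} (x : V) (u : Fin k → M) : 0 ≤ gain step r x u := by
  unfold gain
  exact List.sum_nonneg (by
    intro t ht
    obtain ⟨v, _, rfl⟩ := List.mem_map.1 ht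
    exact hr v)

variable {K : ℕ}

omit [Fintype M] [Inhabited M] in
theorem mem_reach {Z : Finset V} {w : V → Fin K → M} {X : Finset V} {z : V} :
    z ∈ reach step Z w X ↔ z ∈ Z ∧ ∃ x ∈ X, x ∈ Z ∧ Relation.ReflTransGen (edge step Z w) x z := by
  simp [reach]

omit [Fintype M] [Inhabited M] in
theorem reach_mono {Z : Finset V} {w : V → Fin K → M} {X X' : Finset V} (h : X ∩ Z ⊆ X') :
    reach step Z w X ⊆ reach step Z w X' := by
  intro z hz
  rw [mem_reach] at hz ⊢
  obtain ⟨h1, x, hx, hxZ, hR⟩ := hz
  exact ⟨h1, x, h (Finset.mem_inter.2 ⟨hx, hxZ⟩), hxZ, hR⟩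

omit [Fintype M] [Inhabited M] in
theorem base_mono (hr : ∀ v, 0 ≤ r v) {Z : Finset V} {w : V → Fin K → M} {X X' : Finset V} (h : X ∩ Z ⊆ X') :
    base step r Z w X ≤ base step r Z w X' := by
  unfold base
  exact Finset.sum_le_sum_of_subset_of_nonneg (reach_mono step h) fun z _ _ => gain_nonneg step r hr _ _

omit [Inhabited M] in
theorem Phi_mono (hr : ∀ v, 0 ≤ r v) (Z : Finset V) (w : V → Fin K → M) (L : List V) :
    ∀ X X' : Finset V, X ∩ Z ⊆ X' → Phi step r Z w X L ≤ Phi step r Z w X' L := by
  induction L with
  | nil => intro X X' h; exact base_mono step r hr h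
  | cons x L ih =>
    intro X X' h
    simp only [Phi]
    refine avg_mono fun u => ?_
    have := ih (X ∪ vis step x u) (X' ∪ vis step x u) (by
      rw [Finset.union_inter_distrib_right]
      exact Finset.union_subset_union h Finset.inter_subset_left)
    linarith

omit [Inhabited M] in
theorem Phi_congr_X (Z : Finset V) (w : V → Fin K → M) (L : List V) :
    ∀ X X' : Finset V, X ∩ Z = X' ∩ Z → Phi step r Z w X L = Phi step r Z w X' L := by
  induction L with
  | nil =>
    intro X X' h
    simp only [Phi, base]
    congr 1
    refine Finset.Subset.antisymm (reach_mono step ?_) (reach_mono step ?_)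
    · rw [h]; exact Finset.inter_subset_left
    · rw [← h]; exact Finset.inter_subset_left
  | cons x L ih =>
    intro X X' h
    simp only [Phi]
    refine avg_congr fun u => ?_
    rw [ih (X ∪ vis step x u) (X' ∪ vis step x u) (by
      rw [Finset.union_inter_distrib_right, Finset.union_inter_distrib_right, h])]

omit [Fintype M] [Inhabited M] in
/-- chains from `Z` only use the moves at `Z` -/
theorem chain_congr {Z : Finset V} {w w' : V → Fin K → M} (h : ∀ z ∈ Z, w z = w' z) {x z : V} (hx : x ∈ Z)
    (hR : Relation.ReflTransGen (edge step Z w) x z) : Relation.ReflTransGen (edge step Z w') x z := by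
  have key : x ∈ Z → z ∈ Z ∧ Relation.ReflTransGen (edge step Z w') x z := by
    induction hR with
    | refl => exact fun hx => ⟨hx, Relation.ReflTransGen.refl⟩
    | tail h1 h2 ih =>
      intro hx
      obtain ⟨h3, h4⟩ := ih hx
      obtain ⟨h5, h6⟩ := h2
      exact ⟨h5, h4.tail ⟨h5, by rw [← h _ h3]; exact h6⟩⟩
  exact (key hx).2

omit [Fintype M] [Inhabited M] in
theorem reach_congr {Z : Finset V} {w w' : V → Fin K → M} (h : ∀ z ∈ Z, w z = w' z) (X : Finset V) :
    reach step Z w X = reach step Z w' X := by
  ext z
  rw [mem_reach, mem_reach]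
  constructor
  · rintro ⟨h1, x, hx, hxZ, hR⟩
    exact ⟨h1, x, hx, hxZ, chain_congr step h hxZ hR⟩
  · rintro ⟨h1, x, hx, hxZ, hR⟩
    exact ⟨h1, x, hx, hxZ, chain_congr step (fun z hz => (h z hz).symm) hxZ hR⟩

omit [Inhabited M] in
theorem Phi_congr_w {Z : Finset V} {w w' : V → Fin K → M} (h : ∀ z ∈ Z, w z = w' z) (L : List V) :
    ∀ X : Finset V, Phi step r Z w X L = Phi step r Z w' X L := by
  induction L with
  | nil =>
    intro X
    simp only [Phi, base]
    rw [reach_congr step h]
    refine Finset.sum_congr rfl fun z hz => ?_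
    rw [h z (mem_reach (step := step).1 hz).1]
  | cons x L ih =>
    intro X
    simp only [Phi]
    exact avg_congr fun u => by rw [ih]

omit [Fintype M] [Inhabited M] in
/-- the reach of a visited site of `Z` -/
theorem reach_insert {Z : Finset V} {w : V → Fin K → M} (X : Finset V) {y : V} (hy : y ∈ Z) :
    reach step Z w (insert y X) = insert y (reach step (Z.erase y) w (X ∪ vis step y (w y))) := by
  have sub : ∀ a b, edge step (Z.erase y) w a b → edge step Z w a b := by
    rintro a b ⟨h1, h2⟩
    exact ⟨Finset.mem_of_mem_erase h1, h2⟩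
  ext z
  rw [Finset.mem_insert, mem_reach, mem_reach]
  constructor
  · rintro ⟨hz, x, hx, hxZ, hR⟩
    by_cases hzy : z = y
    · exact Or.inl hzy
    right
    refine ⟨Finset.mem_erase.2 ⟨hzy, hz⟩, ?_⟩
    -- last visit of y
    have key : (∃ x' ∈ X ∪ vis step y (w y), x' ∈ Z.erase y ∧
        Relation.ReflTransGen (edge step (Z.erase y) w) x' z) ∨ z = y := by
      clear hz hzy
      induction hR with
      | refl =>
        by_cases h : x = y
        · exact Or.inr h
        · left
          rcases Finset.mem_insert.1 hx with h' | h'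
          · exact absurd h' h
          · exact ⟨x, Finset.mem_union_left _ h', Finset.mem_erase.2 ⟨h, hxZ⟩, Relation.ReflTransGen.refl⟩
      | @tail b c h1 h2 ih =>
        by_cases hc : c = y
        · exact Or.inr hc
        left
        obtain ⟨h3, h4⟩ := h2
        rcases ih with ⟨x', hx', hx'Z, hR'⟩ | hb
        · exact ⟨x', hx', hx'Z, hR'.tail ⟨Finset.mem_erase.2 ⟨hc, h3⟩, h4⟩⟩
        · subst hb
          exact ⟨c, Finset.mem_union_right _ h4, Finset.mem_erase.2 ⟨hc, h3⟩, Relation.ReflTransGen.refl⟩
    exact key.resolve_right hzy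
  · rintro (rfl | ⟨hz, x, hx, hxZ, hR⟩)
    · exact ⟨hy, z, Finset.mem_insert_self _ _, hy, Relation.ReflTransGen.refl⟩
    · have hR' : Relation.ReflTransGen (edge step Z w) x z := Relation.ReflTransGen.mono sub _ _ hR
      refine ⟨Finset.mem_of_mem_erase hz, ?_⟩
      rcases Finset.mem_union.1 hx with h | h
      · exact ⟨x, Finset.mem_insert_of_mem h, Finset.mem_of_mem_erase hxZ, hR'⟩
      · exact ⟨y, Finset.mem_insert_self _ _, hy, Relation.ReflTransGen.head ⟨Finset.mem_of_mem_erase hxZ, h⟩ hR'⟩

omit [Fintype M] [Inhabited M] in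
theorem base_insert {Z : Finset V} {w : V → Fin K → M} (X : Finset V) {y : V} (hy : y ∈ Z) :
    base step r Z w (insert y X) = gain step r y (w y) + base step r (Z.erase y) w (X ∪ vis step y (w y)) := by
  unfold base
  rw [reach_insert step X hy, Finset.sum_insert]
  intro h
  exact (Finset.mem_erase.1 (mem_reach (step := step).1 h).1).1 rfl

theorem Phi_insert {Z : Finset V} {w : V → Fin K → M} {y : V} (hy : y ∈ Z) (L : List V) :
    ∀ X : Finset V, Phi step r Z w (insert y X) L =
      gain step r y (w y) + Phi step r (Z.erase y) w (X ∪ vis step y (w y)) L := by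
  induction L with
  | nil => intro X; exact base_insert step r X hy
  | cons x L ih =>
    intro X
    simp only [Phi]
    rw [← avg_const_add]
    refine avg_congr fun u => ?_
    rw [Finset.insert_union, ih, Finset.union_right_comm]
    ring

theorem Phi_zero (Z : Finset V) (w : V → Fin 0 → M) (L : List V) : Phi step r Z w ∅ L = 0 := by
  induction L with
  | nil =>
    simp only [Phi, base]
    have : reach step Z w ∅ = ∅ := by
      ext z
      rw [mem_reach]
      simp
    rw [this, Finset.sum_empty]
  | cons x L ih =>
    simp only [Phi]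
    have : ∀ u : Fin 0 → M, gain step r x u + Phi step r Z w (∅ ∪ vis step x u) L = 0 := by
      intro u
      have h1 : gain step r x u = 0 := by simp [gain, path]
      have h2 : vis step x u = ∅ := by simp [vis, path]
      rw [h1, h2, Finset.empty_union, ih, zero_add]
    rw [avg_congr this]
    exact avg_const 0

/-- one move -/
theorem Phi_step (hr : ∀ v, 0 ≤ r v) {k : ℕ} (Z : Finset V) (w : V → Fin (k + 1) → M) (X : Finset V) (x : V)
    (L : List V) : Phi step r Z w X (x :: L) ≤
      avg fun a : M => r (step x a) + Phi step r Z w (insert (step x a) X) (step x a :: L) := by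
  have h1 : Phi step r Z w X (x :: L) = avg fun a : M => avg fun u : Fin k → M =>
      (r (step x a) + (gain step r (step x a) u +
        Phi step r Z w (insert (step x a) X ∪ vis step (step x a) u) L)) := by
    simp only [Phi]
    rw [← avg_prod (fun (a : M) (u : Fin k → M) => (r (step x a) + (gain step r (step x a) u +
        Phi step r Z w (insert (step x a) X ∪ vis step (step x a) u) L)))]
    rw [← avg_equiv (Fin.consEquiv (fun _ : Fin (k + 1) => M))]
    refine avg_congr ?_
    rintro ⟨a, u⟩
    change gain step r x (Fin.cons a u : Fin (k + 1) → M) +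
      Phi step r Z w (X ∪ vis step x (Fin.cons a u : Fin (k + 1) → M)) L = _
    rw [gain_cons, vis_cons, Finset.union_insert, Finset.insert_union]
    ring
  rw [h1]
  refine avg_mono fun a => ?_
  rw [avg_const_add]
  refine add_le_add le_rfl ?_
  simp only [Phi]
  rw [← avg_equiv (Fin.snocEquiv (fun _ : Fin (k + 1) => M)) (fun u : Fin (k + 1) → M =>
    gain step r (step x a) u + Phi step r Z w (insert (step x a) X ∪ vis step (step x a) u) L)]
  have h2 : avg (fun u : Fin k → M => gain step r (step x a) u +
        Phi step r Z w (insert (step x a) X ∪ vis step (step x a) u) L) =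
      avg (fun p : M × (Fin k → M) => gain step r (step x a) p.2 +
        Phi step r Z w (insert (step x a) X ∪ vis step (step x a) p.2) L) := by
    rw [avg_prod (fun (_ : M) (u : Fin k → M) => gain step r (step x a) u +
        Phi step r Z w (insert (step x a) X ∪ vis step (step x a) u) L), avg_const]
  rw [h2]
  refine avg_mono ?_
  rintro ⟨b, u⟩
  change gain step r (step x a) u + Phi step r Z w (insert (step x a) X ∪ vis step (step x a) u) L ≤
    gain step r (step x a) (Fin.snoc u b : Fin (k + 1) → M) +
      Phi step r Z w (insert (step x a) X ∪ vis step (step x a) (Fin.snoc u b : Fin (k + 1) → M)) L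
  refine add_le_add (gain_snoc step r hr _ _ _) (Phi_mono step r hr Z w L _ _ ?_)
  exact Finset.inter_subset_left.trans (Finset.union_subset_union_right (vis_snoc step _ _ _))

end

end PkgB

open PkgB

variable {V M : Type} [DecidableEq V] [Fintype M] [Inhabited M]
variable (step : V → M → V) (r : V → ℝ) (K : ℕ) (B : Finset V)

open Classical in
theorem PkgB.F_zero (O : List V) (Z : Set V) : F step r 0 B O Z = 0 := by
  unfold F
  rw [avg_congr fun w => Phi_zero step r (B.filter (· ∈ Z)) (ext B w) O]
  exact avg_const 0

open Classical in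
theorem F_step (hr : ∀ v, 0 ≤ r v) (x : V) (O : List V) (Z : Set V) :
    F step r K B (x :: O) Z ≤ avg fun a : M => r (step x a) +
      (if step x a ∈ B ∧ step x a ∈ Z then F step r K B (step x a :: step x a :: O) (Z \ {step x a})
        else F step r K B (step x a :: O) Z) := by
  rcases K with _ | k
  · rw [F_zero]
    refine avg_nonneg fun a => ?_
    split_ifs
    · rw [F_zero, add_zero]; exact hr _
    · rw [F_zero, add_zero]; exact hr _
  · have h1 : F step r (k + 1) B (x :: O) Z ≤ avg fun w : B → Fin (k + 1) → M => avg fun a : M =>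
        r (step x a) + Phi step r (B.filter (· ∈ Z)) (ext B w) (insert (step x a) ∅) (step x a :: O) := by
      unfold F
      exact avg_mono fun w => Phi_step step r hr _ _ _ _ _
    refine h1.trans ?_
    rw [avg_comm]
    refine avg_mono fun a => ?_
    rw [avg_const_add]
    refine add_le_add le_rfl (le_of_eq ?_)
    split_ifs with h
    · obtain ⟨hB, hZ⟩ := h
      have hyZ : step x a ∈ B.filter (· ∈ Z) := Finset.mem_filter.2 ⟨hB, hZ⟩
      have hset : ∀ inst : DecidablePred (· ∈ Z \ {step x a}),
          @Finset.filter V (· ∈ Z \ {step x a}) inst B = (B.filter (· ∈ Z)).erase (step x a) := by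
        intro inst
        ext z
        simp only [Finset.mem_filter, Finset.mem_erase, Set.mem_sdiff, Set.mem_singleton_iff]
        tauto
      have hext : ∀ w : B → Fin (k + 1) → M, ext B w (step x a) = w ⟨step x a, hB⟩ := by
        intro w
        unfold ext
        rw [dif_pos hB]
      have h2 : (fun w : B → Fin (k + 1) → M =>
          Phi step r (B.filter (· ∈ Z)) (ext B w) (insert (step x a) ∅) (step x a :: O)) =
          fun w : B → Fin (k + 1) → M => (fun (u : Fin (k + 1) → M) (w : B → Fin (k + 1) → M) =>
            gain step r (step x a) u + Phi step r ((B.filter (· ∈ Z)).erase (step x a)) (ext B w)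
              (∅ ∪ vis step (step x a) u) (step x a :: O)) (w ⟨step x a, hB⟩) w := by
        funext w
        rw [Phi_insert step r hyZ, hext]
      rw [h2, resample (⟨step x a, hB⟩ : B) (fun (u : Fin (k + 1) → M) (w : B → Fin (k + 1) → M) =>
            gain step r (step x a) u + Phi step r ((B.filter (· ∈ Z)).erase (step x a)) (ext B w)
              (∅ ∪ vis step (step x a) u) (step x a :: O))]
      · unfold F
        rw [hset]
        rfl
      · intro u w w' hw
        have : ∀ z ∈ (B.filter (· ∈ Z)).erase (step x a), ext B w z = ext B w' z := by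
          intro z hz
          obtain ⟨hz1, hz2⟩ := Finset.mem_erase.1 hz
          have hzB := (Finset.mem_filter.1 hz2).1
          unfold ext
          rw [dif_pos hzB, dif_pos hzB]
          exact hw _ fun h => hz1 (congrArg Subtype.val h)
        rw [Phi_congr_w step r this]
    · have hyZ : step x a ∉ B.filter (· ∈ Z) := fun hh => h (Finset.mem_filter.1 hh)
      unfold F
      refine avg_congr fun w => Phi_congr_X step r _ _ _ _ _ ?_
      rw [Finset.insert_inter_of_notMem hyZ]

/-- a stopped frog does nothing -/
theorem F_dead (x : V) (O : List V) (Z : Set V) (h : ∀ a, step x a = x) (hx : ¬ (x ∈ B ∧ x ∈ Z)) (hr : r x = 0) :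
    F step r K B (x :: O) Z = F step r K B O Z := by
  classical
  have hpath : ∀ l : List M, ∀ v ∈ path step x l, v = x := by
    intro l
    induction l with
    | nil => intro v hv; simp [path] at hv
    | cons a l ih =>
      intro v hv
      simp only [path, h, List.mem_cons] at hv
      rcases hv with h1 | h1
      · exact h1
      · exact ih v h1
  have hgain : ∀ u : Fin K → M, gain step r x u = 0 := by
    intro u
    unfold gain
    refine List.sum_eq_zero ?_
    intro t ht
    obtain ⟨v, hv, rfl⟩ := List.mem_map.1 ht
    rw [hpath _ v hv, hr]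
  have hvis : ∀ u : Fin K → M, ∀ v ∈ vis step x u, v = x := by
    intro u v hv
    unfold vis at hv
    rw [List.mem_toFinset] at hv
    exact hpath _ v hv
  unfold F
  refine avg_congr fun w => ?_
  have hnot : x ∉ B.filter (· ∈ Z) := fun hh => hx (Finset.mem_filter.1 hh)
  simp only [Phi]
  have h1 : ∀ u : Fin K → M, gain step r x u +
      Phi step r (B.filter (· ∈ Z)) (ext B w) (∅ ∪ vis step x u) O =
      Phi step r (B.filter (· ∈ Z)) (ext B w) ∅ O := by
    intro u
    rw [hgain, zero_add]
    refine Phi_congr_X step r _ _ _ _ _ ?_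
    rw [Finset.empty_inter]
    refine Finset.eq_empty_of_forall_notMem fun v hv => ?_
    obtain ⟨hv1, hv2⟩ := Finset.mem_inter.1 hv
    rw [Finset.empty_union] at hv1
    rw [hvis u v hv1] at hv2
    exact hnot hv2
  rw [avg_congr h1, avg_const]

end Pool.Agent.U140.FM

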